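import Pool.Agent.HFC.Stmts
import Pool.Agent.Helper63_PFD.EGX

/-!
# Row YKL of HFC (helper64): the theorem is known for the terminal class
-/

open scoped BigOperators

noncomputable section

namespace Pool.Agent.HFC.H64

open Pool.Agent.Helper51_AWC Pool.Agent.Helper79_WRA Pool.Agent.PP Pool.Agent.PP.KF
open Pool.Agent.PP.K9 Pool.Agent.PP.K9.H97 Pool.Agent.PP.H75 Pool.Agent.PP.T3 Pool.Agent.PP.T2
open Pool.Agent.PFD (Ei)
open Pool.Agent.PSS Pool.Agent.PST Pool.Agent.PST.GU Pool.Agent.HFC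

attribute [local instance] Ideal.Quotient.field

/-- row YKL -/
theorem ykl : YklStmt := by
  intro hR hT ℓ hℓ M hMm hM G _ _ e V γ hL hV hK
  rcases hK with hK | ⟨h5, hfin, hc⟩
  · exact hR ℓ M hM G e V γ hL hV hK
  · rw [PFD.H63.card_Ei] at hc
    exact hT ℓ M hM G e V γ hL hV h5 hc

end Pool.Agent.HFC.H64
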